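import Pool.Agent.T9h90.SP.Spec

/-! Piece DU of the project SP. -/

set_option autoImplicit false

namespace Pool.Agent.T9h12.SP

open Pool.Agent.Helper617.RM Pool.Agent.T9h90.SP

universe u

theorem size_dual (p : Sep) : p.dual.size = p.size := by
  induction p with
  | one => rfl
  | node c a b iha ihb => cases c <;> simp [Sep.dual, Sep.size, iha, ihb]

theorem val_lt (p : Sep) : ∀ i, i < p.size → p.val i < p.size := by
  induction p with
  | one => intro i _; simp [Sep.val, Sep.size]
  | node c a b iha ihb =>
    intro i hi
    simp only [Sep.size] at hi
    cases c
    · simp only [Sep.val, Sep.size]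
      split_ifs with h
      · have := iha i h; omega
      · have := ihb (i - a.size) (by omega); omega
    · simp only [Sep.val, Sep.size]
      split_ifs with h
      · have := iha i h; omega
      · have := ihb (i - a.size) (by omega); omega

theorem val_dual (p : Sep) : ∀ i j, i < j → j < p.size →
    (p.dual.val i < p.dual.val j ↔ ¬ (p.val i < p.val j)) := by
  induction p with
  | one => intro i j hij hj; simp only [Sep.size] at hj; omega
  | node c a b iha ihb =>
    intro i j hij hj
    simp only [Sep.size] at hj
    cases c
    · simp only [Sep.dual, Sep.val, Bool.not_false, size_dual]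
      by_cases hi' : i < a.size <;> by_cases hj' : j < a.size
      · have := iha i j hij hj'
        simp only [if_pos hi', if_pos hj']
        omega
      · have h1 := val_lt a.dual i (by rw [size_dual]; exact hi')
        rw [size_dual] at h1
        have h2 := val_lt b (j - a.size) (by omega)
        simp only [if_pos hi', if_neg hj']
        omega
      · omega
      · have := ihb (i - a.size) (j - a.size) (by omega) (by omega)
        simp only [if_neg hi', if_neg hj']
        omega
    · simp only [Sep.dual, Sep.val, Bool.not_true, size_dual]
      by_cases hi' : i < a.size <;> by_cases hj' : j < a.size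
      · have := iha i j hij hj'
        simp only [if_pos hi', if_pos hj']
        omega
      · have h1 := val_lt a i hi'
        have h2 := val_lt b.dual (j - a.size) (by rw [size_dual]; omega)
        rw [size_dual] at h2
        simp only [if_pos hi', if_neg hj']
        omega
      · omega
      · have := ihb (i - a.size) (j - a.size) (by omega) (by omega)
        simp only [if_neg hi', if_neg hj']
        omega

theorem copy_dual {M : Type u} [LT M] (f : M → M → Bool) (H : Set M) (p : Sep) (x : ℕ → M)
    (h : Copy f H p.dual x) : Copy (fun x y => !f x y) H p x := by
  refine ⟨fun i hi => h.1 i (by rw [size_dual]; exact hi), fun i j hij hj => ?_⟩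
  obtain ⟨h1, h2⟩ := h.2 i j hij (by rw [size_dual]; exact hj)
  refine ⟨h1, ?_⟩
  have h3 := val_dual p i j hij hj
  dsimp only
  rw [h2]
  by_cases h4 : p.val i < p.val j
  · rw [decide_eq_true h4, decide_eq_false (fun h5 => h3.1 h5 h4)]
    rfl
  · rw [decide_eq_false h4, decide_eq_true (h3.2 h4)]
    rfl

theorem spine_dual {a : Sep} (h : Spine a) : Spine a.dual := by
  induction h with
  | one => exact Spine.one
  | node c a h ih => exact Spine.node (!c) a.dual ih

theorem du : S_DU.{u} := by
  intro N _ p
  constructor
  · intro h f hf
    have hg : ColIn N (fun x y => !f x y) := by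
      have h1 : D0 (fun v : Ctx N => f (v 0) (v 1) = true) :=
        D0.of_codeRel (R := fun x y => f x y = true) hf
      have h2 : D0 (fun v : Ctx N => (!f (v 0) (v 1)) = true) :=
        h1.not.congr fun v => by simp
      exact codeRel_mem_D0 (R := fun x y => (!f x y) = true) h2
    obtain ⟨H, hH, hfin, hno⟩ := h _ hg
    exact ⟨H, hH, hfin, fun ⟨x, hx⟩ => hno ⟨x, copy_dual f H p x hx⟩⟩
  · intro c hg
    induction hg with
    | one => exact Good.one
    | same a v ha hv ih => exact Good.same a.dual v.dual (spine_dual ha) ih
    | opp v hv ih => exact Good.opp v.dual ih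

end Pool.Agent.T9h12.SP
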