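import Pool.Agent.T9h90.SP.Spec

/-! Pieces NC, RG of the project SP. -/

set_option autoImplicit false

namespace Pool.Agent.T9h12.SP

open Pool.Agent.Helper617.RM Pool.Agent.T9h90.SP Pool.Agent.H645R2.R

universe u

variable {N : L2Structure.{u}} [IsModelRCA0 N]

theorem d0_fin {P : ℕ → Ctx N → Prop} (h : ∀ i, D0 (P i)) (n : ℕ) :
    D0 (fun v => ∀ i, i < n → P i v) := by
  induction n with
  | zero => exact D0.true.congr fun v => by simp
  | succ n ih =>
    refine (ih.and (h n)).congr fun v => ?_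
    constructor
    · rintro ⟨h1, h2⟩ i hi
      rcases Nat.lt_succ_iff_lt_or_eq.1 hi with h3 | h3
      · exact h1 i h3
      · rw [h3]; exact h2
    · intro h1
      exact ⟨fun i hi => h1 i (Nat.lt_succ_of_lt hi), h1 n (Nat.lt_succ_self n)⟩

theorem df_col {f : N.M → N.M → Bool} (hf : DF N f) (c : Bool) {s t : Ctx N → N.M}
    (hs : Tm s) (ht : Tm t) : D0 (fun v => f (s v) (t v) = c) := by
  have h := D0.rel (R := fun x y => f x y = true) hf hs ht
  cases c
  · exact h.not.congr fun v => by simp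
  · exact h

theorem nc : S_NC.{u} := by
  intro N _ f hf c H hH n x
  refine comp_D0 (P := fun w => w ∈ H ∧ ∀ i, i < n → x i < w ∧ f (x i) w = c) ?_
  refine D0.and (D0.mem (Tm.var 0) hH) (d0_fin (fun i => ?_) n)
  exact D0.and (D0.lt (Tm.const (x i)) (Tm.var 0)) (df_col hf c (Tm.const (x i)) (Tm.var 0))

theorem rg : S_RG.{u} := by
  intro N _ g hg hstep
  have h1 : ∀ m n, m < n → g m < g n := by
    intro m n
    refine ind_S1 (P := fun n => m < n → g m < g n) ?_ ?_ ?_ n
    · exact (D1.imp (D1.lt (DG.const m) (DG.var 0))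
        (D1.lt (DG.const (g m)) (DG.app hg (DG.var 0)))).1
    · intro h
      exact absurd h (not_lt_of_ge (zero_le' m))
    · intro k ih hk
      rcases lt_or_eq_of_le (lt_add_one_iff'.1 hk) with h | h
      · exact (ih h).trans (hstep k)
      · rw [h]; exact hstep k
  have h2 : ∀ n, n ≤ g n := by
    intro n
    refine ind_S1 (P := fun n => n ≤ g n) ?_ ?_ ?_ n
    · exact (D1.le (DG.var 0) (DG.app hg (DG.var 0))).1
    · exact zero_le' _
    · intro k ih
      exact succ_le' (lt_of_le_of_lt ih (hstep k))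
  refine ⟨h1, h2, fun I hI => ⟨?_, ?_⟩⟩
  · have h3 : {y | ∃ i ∈ I, y = g i} = {y | ∃ x, x < y + 1 ∧ (x ∈ I ∧ y = g x)} := by
      ext y
      constructor
      · rintro ⟨i, hi, rfl⟩
        exact ⟨i, lt1_of_le (h2 i), hi, rfl⟩
      · rintro ⟨i, -, hi, h⟩
        exact ⟨i, hi, h⟩
    rw [h3]
    refine comp_D0 (P := fun y => ∃ x, x < y + 1 ∧ (x ∈ I ∧ y = g x)) ?_
    refine D0.bex (P := fun v x => x ∈ I ∧ v 0 = g x) ((Tm.var 0).add Tm.one) ?_
    exact D0.and (D0.mem (Tm.var 0) hI)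
      (D0.rel (R := fun x y => y = g x) hg (Tm.var 0) (Tm.var 1))
  · intro hU b
    obtain ⟨i, hi, hb⟩ := hU b
    exact ⟨g i, ⟨i, hi, rfl⟩, lt_of_lt_of_le hb (h2 i)⟩

end Pool.Agent.T9h12.SP
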